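import Pool.Agent.Run7.h841.FQ.Iface
import Pool.Agent.Run7.h841.TM.PDual
import Pool.Agent.Run7.h841.TM.PInj
import Pool.Statements.S13392

/-! Final assembly of MP_74810d_gt (frozen S13392) from the pieces of `Iface.lean`. -/

set_option autoImplicit false
set_option linter.unusedVariables false

namespace Run7.h841.FQ

open Set Topology
open Run7.h841.TM
open Pool.Agent.Helper922.HB.Sc (Sing sface vert)
open Pool.Agent.Helper158.PD (TS sub front back OB)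

theorem asm (hTOP : S_TOP) (hND : S_ND) (hNC : S_NC) (hJP : S_JP) (hCX : S_CX) (hL1 : S_LOC1)
    (hL2 : S_LOC2) (hEND : S_END) (hSPH : S_SPH) (hGQ : S_GQ) :
    ¬ (∀ n : ℕ, 1 ≤ n →
      ∀ (Q : Type) [TopologicalSpace Q] [T2Space Q] [SecondCountableTopology Q]
        [ChartedSpace (EuclideanSpace ℝ (Fin n)) Q] [SimplyConnectedSpace Q],
        ∃ Φ : ℝ → EuclideanSpace ℝ (Fin (n + 1)) → EuclideanSpace ℝ (Fin (n + 1)),
          ContDiff ℝ (⊤ : ℕ∞)
              (fun p : ℝ × EuclideanSpace ℝ (Fin (n + 1)) => Φ p.1 p.2) ∧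
          (∀ x, Φ 0 x = x) ∧
          (∀ (s t : ℝ) (x : EuclideanSpace ℝ (Fin (n + 1))), Φ (s + t) x = Φ s (Φ t x)) ∧
          Nonempty
            (Quot (fun x y : EuclideanSpace ℝ (Fin (n + 1)) => ∃ t : ℝ, Φ t x = y) ≃ₜ Q)) := by
  intro H
  obtain ⟨Q, _, _, _, _, _, _, u, hu, hune, c, huc⟩ := hSPH
  obtain ⟨Φ, hs, h0, hadd, hhom⟩ := H 4 (by norm_num) Q
  have hfl : IsFlow Φ := ⟨hs, h0, hadd⟩
  obtain ⟨p, hp⟩ := hTOP.1 Q Φ hfl hhom
  obtain ⟨hcn, hloc, Bx, o, I, hgeo, hbox, hori, hfund⟩ := hGQ Q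
  haveI := hcn
  obtain ⟨IN, hIN⟩ := hNC
  obtain ⟨J, hJ⟩ := hJP Q Φ p hp Bx o IN hgeo hloc hori hIN
  have hacy : Acy3 Φ p IN J := hCX Q Φ p IN J hp hloc hIN hJ
    (fun q hq => hL1 Q Φ p Bx o IN J hp hgeo hori hIN hJ q hq
      (hND Q Φ p hp Bx o IN hgeo hbox hori hIN q hq))
    (fun q hq => hL2 Q Φ p Bx o IN J hp hgeo hori hIN hJ q hq)
  obtain ⟨h, g, hg⟩ := hEND Q Φ p Bx o I IN J ⟨hp, hgeo, hloc, hori, hfund, hIN, hJ⟩ hacy
  haveI : Module.Injective ℚ ℚ := INJ.2.1 ℚ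
  obtain ⟨hinj, hsurj⟩ := DUAL Q 3 ∅ Bx o ℚ ℚ I 1 isClosed_empty hgeo hloc hori hfund isTw_one
  have huu : h u * g u = 0 := by
    rw [← hg u u hu hu, huc]
    exact hfund.clos c (fun x hx => absurd hx (notMem_empty x))
  rcases mul_eq_zero.1 huu with h1 | h1
  · obtain ⟨a', -, ha'⟩ := hinj 2 2 rfl u (fun x hx => absurd hx (notMem_empty x))
      (by rw [dL_one]; exact hu) (by
        intro b hb
        rw [dF_one] at hb
        rw [hg u b hu hb, h1, zero_mul])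
    apply hune (cp 1 a')
    have h2 := congrArg (cp 2) ha'
    rw [cp_inc, tL_one] at h2
    exact h2.symm
  · have hnot : u ∉ LinearMap.range (dlₗ (X := Q) (A := ℚ) ℚ 1) := by
      rintro ⟨y, hy⟩
      exact hune y hy
    obtain ⟨φ, hφ1, hφ2⟩ := Submodule.exists_dual_map_eq_bot_of_notMem hnot inferInstance
    have hφ3 : ∀ y : Sing Q 1 → ℚ, φ (dl y) = 0 := by
      intro y
      have : φ (dl y) ∈ (LinearMap.range (dlₗ (X := Q) (A := ℚ) ℚ 1)).map φ :=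
        ⟨dl y, ⟨y, rfl⟩, rfl⟩
      rw [hφ2] at this
      exact this
    rcases hsurj 2 φ (by
      intro c
      rw [tF_one]
      exact hφ3 (cp 1 c)) with ⟨h2, -⟩ | ⟨p', h2, a, -, ha, hab⟩
    · omega
    · obtain rfl : p' = 2 := by omega
      apply hφ1
      rw [hab u (by rw [dF_one]; exact hu)]
      rw [dL_one] at ha
      rw [hg a u ha hu, h1, mul_zero]

end Run7.h841.FQ
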