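import Pool.Agent.Run7.h841.TM.Iface
import Pool.Agent.Run7.h841.TM.PCup

/-!
# Definitions for the formalisation of MP_74810d_gt (helper841), see `FQ/Iface.lean`
-/

set_option autoImplicit false
set_option linter.unusedVariables false

namespace Run7.h841.FQ

open Set Topology
open Run7.h841.TM
open Pool.Agent.Helper922.HB.Sc (Sing sface vert)
open Pool.Agent.Helper158.PD (TS sub front back OB)

/-- the total space -/
abbrev N5 : Type := EuclideanSpace ℝ (Fin 5)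

/-- a smooth flow on `ℝ⁵` -/
structure IsFlow (Φ : ℝ → N5 → N5) : Prop where
  smooth : ContDiff ℝ (⊤ : ℕ∞) (fun p : ℝ × N5 => Φ p.1 p.2)
  zero : ∀ x, Φ 0 x = x
  add : ∀ (s t : ℝ) (x : N5), Φ (s + t) x = Φ s (Φ t x)

section q

variable {Q : Type} [TopologicalSpace Q]

/-- `p` is the projection to the orbit space of the flow `Φ` -/
structure IsQuo (Φ : ℝ → N5 → N5) (p : C(N5, Q)) : Prop where
  flow : IsFlow Φ
  surj : Function.Surjective p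
  opn : IsOpenMap p
  fib : ∀ x y, p x = p y ↔ ∃ t, Φ t x = y

/-- the images of the fixed points -/
def FX (Φ : ℝ → N5 → N5) (p : C(N5, Q)) : Set Q := p '' {x | ∀ t, Φ t x = x}

/-- the points whose fibre is not compact (lines) -/
def LL (p : C(N5, Q)) : Set Q := {q | ¬ IsCompact (p ⁻¹' {q})}

/-- compact support -/
def Cc {A : Type} [AddCommGroup A] (β : TS N5 → A) : Prop := ∃ K : Set N5, IsCompact K ∧ NV Kᶜ β

/-- a flow box around the orbit segment `Φ [-T, T] z`; `e.symm v = Φ (v 0) (a point of a transversal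
disc through z)` -/
structure IsFB (Φ : ℝ → N5 → N5) (z : N5) (T ε : ℝ) (e : PartialEquiv N5 (Fin 5 → ℝ)) : Prop where
  chart : IsHChart e univ
  T_pos : 0 < T
  ε_pos : 0 < ε
  tgt : e.target = {v | |v 0| < T + ε ∧ ∀ i, i ≠ 0 → |v i| < ε}
  ctr : e.symm 0 = z
  flow : ∀ v ∈ e.target, ∀ s : ℝ, Function.update v 0 (v 0 + s) ∈ e.target →
    e.symm (Function.update v 0 (v 0 + s)) = Φ s (e.symm v)

open Classical in
/-- the cochain dual to the transversal disc `v 0 = 0`, `|v i| < r` of a flow box -/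
noncomputable def wbox (e : PartialEquiv N5 (Fin 5 → ℝ)) (T r : ℝ) : Sing N5 1 → ℤ := fun σ =>
  if range σ ⊆ BX e {v | |v 0| < T ∧ ∀ i, i ≠ 0 → |v i| < r} then
    (if 0 ≤ e (σ (vert 1 1)) 0 then 1 else 0) - (if 0 ≤ e (σ (vert 1 0)) 0 then 1 else 0) else 0

/-- `w` is a compactly supported integral cochain of degree one which, near the fibre of `q`, is a
cocycle and generates the cohomology with compact supports in degree one -/
structure IsW (p : C(N5, Q)) (q : Q) (w : Sing N5 1 → ℤ) : Prop where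
  supp : Cc (inc w)
  clos : Nv (p ⁻¹' {q}) (dl w)
  gen : ∀ β : TS N5 → ℚ, Cc β → NV (p ⁻¹' {q}) (td β) →
    ∃ (s r : ℚ) (b : TS N5 → ℚ), Cc b ∧ (q ∈ LL p → s = 0) ∧
      NV (p ⁻¹' {q}) (β - cst s - inc (tens w r) - td b)

/-- the fundamental class of `ℝ⁵` (integration of cochains with compact support) -/
structure IsIN (IN : (Sing N5 5 → ℚ) →ₗ[ℚ] ℚ) : Prop where
  kill : ∀ c, Nv univ c → IN c = 0
  clos : ∀ c : Sing N5 4 → ℚ, Cc (inc c) → IN (dl c) = 0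
  box : ∀ V : Set N5, IsBox 5 V → ∀ w : Sing N5 5 → ℤ, USph univ Vᶜ 5 w → IN (tens w 1) ≠ 0
  ex : ∀ β : TS N5 → ℚ, Cc β → NV univ (td β) → IN (cp 5 β) = 0 →
    ∃ b : TS N5 → ℚ, Cc b ∧ NV univ (β - td b)

/-- the correction functional -/
structure IsJ (p : C(N5, Q)) (IN : (Sing N5 5 → ℚ) →ₗ[ℚ] ℚ) (J : (Sing Q 6 → ℚ) →ₗ[ℚ] ℚ) :
    Prop where
  kill : ∀ c, Nv univ c → J c = 0
  bd : ∀ c : Sing Q 5 → ℚ, Nv (LL p) c → J (dl c) = IN (pb p c)

/-- `w` generates near the fibre of `q` and the integral of `w ∪ p^* o(V)` does not vanish for small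
`V` around `q` -/
def NDW (p : C(N5, Q)) (Bx : Set (Set Q)) (o : Set Q → Sing Q 4 → ℤ)
    (IN : (Sing N5 5 → ℚ) →ₗ[ℚ] ℚ) (q : Q) (w : Sing N5 1 → ℤ) : Prop :=
  IsW p q w ∧ ∃ U : Set Q, IsOpen U ∧ q ∈ U ∧ Nv (p ⁻¹' U) (dl w) ∧
    ∀ V ∈ Bx, q ∈ V → V ⊆ U →
      IN (cup (show 1 + 4 = 5 by rfl) (tens w (1 : ℚ)) (tens (pb p (o V)) (1 : ℚ))) ≠ 0

end q

/-! ### pairings -/

section pair

variable {X : Type} [TopologicalSpace X]

/-- the sign twist -/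
def hatt (α : TS X → ℚ) : TS X → ℚ := fun s => (-1 : ℚ) ^ s.1 * α s

/-- bundled `hatt` -/
def hattₗ : (TS X → ℚ) →ₗ[ℚ] (TS X → ℚ) where
  toFun := hatt
  map_add' a b := by funext s; simp [hatt, mul_add]
  map_smul' r a := by funext s; simp [hatt]; ring

/-- bundled pullback -/
def tpbₗ {Y : Type} [TopologicalSpace Y] (f : C(X, Y)) : (TS Y → ℚ) →ₗ[ℚ] (TS X → ℚ) where
  toFun := tpb f
  map_add' a b := rfl
  map_smul' r a := rfl

/-- the pairing `Σ_i ε_i F (a_i ∪ b_{n-i})`, `ε_i = (-1)^{i(i+1)/2}` -/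
noncomputable def pair (n : ℕ) (F : (Sing X n → ℚ) →ₗ[ℚ] ℚ) :
    (TS X → ℚ) →ₗ[ℚ] (TS X → ℚ) →ₗ[ℚ] ℚ :=
  LinearMap.mk₂ ℚ (fun a b => ∑ i : Fin (n + 1), (-1 : ℤ) ^ ((i : ℕ) * (i + 1) / 2) •
      F (cup (show (i : ℕ) + (n - i) = n by omega) (cp (i : ℕ) a) (cp (n - i) b)))
    (by intro a a' b; simp only [cp_add, cup_add_left, map_add, smul_add, Finset.sum_add_distrib])
    (by
      intro c a b
      simp only [cp_smul, cup_smul_left, map_smul, Finset.smul_sum]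
      exact Finset.sum_congr rfl fun i _ => smul_comm _ _ _)
    (by intro a b b'; simp only [cp_add, cup_add_right, map_add, smul_add, Finset.sum_add_distrib])
    (by
      intro c a b
      simp only [cp_smul, cup_smul_right, map_smul, Finset.smul_sum]
      exact Finset.sum_congr rfl fun i _ => smul_comm _ _ _)

theorem pair_apply (n : ℕ) (F : (Sing X n → ℚ) →ₗ[ℚ] ℚ) (a b : TS X → ℚ) :
    pair n F a b = ∑ i : Fin (n + 1), (-1 : ℤ) ^ ((i : ℕ) * (i + 1) / 2) •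
      F (cup (show (i : ℕ) + (n - i) = n by omega) (cp (i : ℕ) a) (cp (n - i) b)) := rfl

end pair

section tri

variable {Q : Type} [TopologicalSpace Q]

/-- the functional `x ↦ ∫_N β ∪ p^* x - J (α ∪ x)` -/
noncomputable def Phi (p : C(N5, Q)) (IN : (Sing N5 5 → ℚ) →ₗ[ℚ] ℚ) (J : (Sing Q 6 → ℚ) →ₗ[ℚ] ℚ)
    (α : TS Q → ℚ) (β : TS N5 → ℚ) : (TS Q → ℚ) →ₗ[ℚ] ℚ :=
  (pair 5 IN β).comp (tpbₗ p) - pair 6 J α

theorem Phi_apply (p : C(N5, Q)) (IN : (Sing N5 5 → ℚ) →ₗ[ℚ] ℚ) (J : (Sing Q 6 → ℚ) →ₗ[ℚ] ℚ)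
    (α : TS Q → ℚ) (β : TS N5 → ℚ) (x : TS Q → ℚ) :
    Phi p IN J α β x = pair 5 IN β (tpb p x) - pair 6 J α x := rfl

/-- triples -/
abbrev Tri (Q : Type) [TopologicalSpace Q] : Type :=
  (TS Q → ℚ) × (TS N5 → ℚ) × ((TS Q → ℚ) →ₗ[ℚ] ℚ)

/-- the triples of degree `k` -/
structure InT (p : C(N5, Q)) (k : ℕ) (x : Tri Q) : Prop where
  a_supp : NV (LL p) x.1
  a_deg : ∀ s : TS Q, s.1 + k ≠ 7 → x.1 s = 0
  b_supp : Cc x.2.1
  b_deg : ∀ s : TS N5, s.1 + k ≠ 6 → x.2.1 s = 0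
  f_kill : ∀ c, NV univ c → x.2.2 c = 0
  f_deg : ∀ c, cp k c = 0 → x.2.2 c = 0

/-- the triples which vanish near `K` -/
structure InZ (p : C(N5, Q)) (K : Set Q) (x : Tri Q) : Prop where
  a : NV K x.1
  b : NV (p ⁻¹' K) x.2.1
  f : ∃ U, IsOpen U ∧ K ⊆ U ∧ ∀ c, NV Uᶜ c → x.2.2 c = 0

/-- the differential of triples -/
noncomputable def tD (p : C(N5, Q)) (IN : (Sing N5 5 → ℚ) →ₗ[ℚ] ℚ) (J : (Sing Q 6 → ℚ) →ₗ[ℚ] ℚ)
    (x : Tri Q) : Tri Q :=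
  (td x.1, td x.2.1 - tpb p (hatt x.1), Phi p IN J x.1 x.2.1 - x.2.2.comp (tdₗ ℚ))

/-- the functional `I` on total cochains, as an element of the complex -/
noncomputable def III (I : (Sing Q 4 → ℚ) →ₗ[ℚ] ℚ) : Tri Q :=
  (0, 0, { toFun := fun c => I (cp 4 c), map_add' := fun a b => by rw [cp_add, map_add],
           map_smul' := fun r a => by rw [cp_smul, map_smul]; rfl })

/-- exactness of the complex of triples near closed sets -/
structure Acy3 (Φ : ℝ → N5 → N5) (p : C(N5, Q)) (IN : (Sing N5 5 → ℚ) →ₗ[ℚ] ℚ)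
    (J : (Sing Q 6 → ℚ) →ₗ[ℚ] ℚ) : Prop where
  acy : ∀ (k : ℕ) (K : Set Q), IsClosed K → (4 ≤ k ∨ Disjoint K (FX Φ p)) →
    ∀ x, InT p (k + 1) x → InZ p K (tD p IN J x) → ∃ y, InT p (k + 2) y ∧ InZ p K (x - tD p IN J y)
  acyF : ∀ (k : ℕ) (x : Tri Q), InT p (k + 1) x → InZ p (FX Φ p) x → InZ p univ (tD p IN J x) →
    ∃ y, InT p (k + 2) y ∧ InZ p (FX Φ p) y ∧ InZ p univ (x - tD p IN J y)

/-- everything about `Q`, `p`, and the functionals -/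
structure Dat (Φ : ℝ → N5 → N5) (p : C(N5, Q)) (Bx : Set (Set Q)) (o : Set Q → Sing Q 4 → ℤ)
    (I : (Sing Q 4 → ℚ) →ₗ[ℚ] ℚ) (IN : (Sing N5 5 → ℚ) →ₗ[ℚ] ℚ)
    (J : (Sing Q 6 → ℚ) →ₗ[ℚ] ℚ) : Prop where
  quo : IsQuo Φ p
  geo : Geo 4 (∅ : Set Q) Bx
  loc : LocCoord Q
  ori : IsOri 4 (∅ : Set Q) Bx o
  fund : IsFund 3 (∅ : Set Q) Bx o I
  isIN : IsIN IN
  isJ : IsJ p IN J

end tri

end Run7.h841.FQ
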