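import Pool.Agent.Run7.h841.FQ.Defs

/-!
# Interface of the formalisation of MP_74810d_gt, frozen S13392 (helper841)

Theorem: `S² × S²` is not the orbit space of a smooth flow on `ℝ⁵`.

Every `S_X : Prop` below is one piece; prove `theorem X : S_X` in `Pool/Agent/Run7/<seat>/FQ/X.lean`
(other pieces may be used as hypotheses: `theorem X (h : S_Y) : S_X` where the comment says (uses Y)).
Also the theorems of `Run7.h841.TM` and `Run7.h690.TM` (CH, G1 hSS, G2, G3 hSS, GEO hSS, ORI2 hSS) are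
available (`hSS = Run7.h841.TM.SS`). Notation: see `TM/Iface.lean` and `FQ/Defs.lean`.

Overview. `p : ℝ⁵ → Q` projection, `L = LL p` (lines), `F = FX Φ p` (fixed points), closed and
disjoint; over `Q \ F` the orbits are circles or properly embedded lines. Complex of triples
`(α, β, f)`: `α` cochain on `Q` vanishing near `L`, `β` cochain on `ℝ⁵` with compact support, `f`
functional on cochains of `Q`; `D (α, β, f) = (dα, dβ - p^*α̂, Φ(α,β) - f ∘ d)`,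
`Φ(α,β)(x) = ∫ β ∪ p^*x - J (α ∪ x)`. It is exact near the points outside `F` (local analysis of the
fibres, and the degree of `p` on transversal discs does not vanish), so exact near every closed set
disjoint from `F`: this is the Gysin sequence. Consequence: the intersection form of `Q` has rank
`≤ 1` (`S_END`).
-/

set_option autoImplicit false
set_option linter.unusedVariables false

namespace Run7.h841.FQ

open Set Topology
open Run7.h841.TM
open Pool.Agent.Helper922.HB.Sc (Sing sface vert)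
open Pool.Agent.Helper158.PD (TS sub front back OB)

/-! ## Part 1: orbits -/

/-- **TOP** (the projection, `L` and `F`; 250 lines).
First part: composition of `Quot.mk` and the homeomorphism; open since the saturation of an open set
is the union of its translates. Second part: if `p⁻¹{q}` is compact, `W ⊇ p⁻¹{q}` open; wlog `W`
bounded. `U = p(W) \ p(frontier W)` is open (`p (frontier W)` compact) and contains `q`; a fibre over
`U` is connected (image of `ℝ`), meets `W` and not its frontier, so it lies in `W`: `p⁻¹ U ⊆ W`,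
`U ∩ LL = ∅`. So `LL` is closed, and `p⁻¹ K` is closed and covered by finitely many bounded sets.
`FX` is closed: `p⁻¹ (FX) = {x | ∀ t, Φ t x = x}` is closed and `p` is a quotient map. -/
def S_TOP : Prop :=
  (∀ (Q : Type) [TopologicalSpace Q] [T2Space Q] (Φ : ℝ → N5 → N5), IsFlow Φ →
    Nonempty (Quot (fun x y : N5 => ∃ t : ℝ, Φ t x = y) ≃ₜ Q) → ∃ p : C(N5, Q), IsQuo Φ p) ∧
  (∀ (Q : Type) [TopologicalSpace Q] [CompactSpace Q] [T2Space Q] (Φ : ℝ → N5 → N5) (p : C(N5, Q)),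
    IsQuo Φ p → IsClosed (LL p) ∧ IsClosed (FX Φ p) ∧ Disjoint (LL p) (FX Φ p) ∧
    p ⁻¹' (FX Φ p) = {x | ∀ t, Φ t x = x} ∧
    (∀ K, IsClosed K → Disjoint K (LL p) → IsCompact (p ⁻¹' K)) ∧
    (∀ q, q ∉ LL p → ∀ W : Set N5, IsOpen W → p ⁻¹' {q} ⊆ W → ∃ U, IsOpen U ∧ q ∈ U ∧ p ⁻¹' U ⊆ W))

/-- **ORB** (orbits; 250 lines). `O = p⁻¹{p z}` is closed in `ℝ⁵`, so locally compact, hence Baire, and
`O = ⋃ n, Φ [-n,n] z`: some point of `O` is interior in `O` to some `Φ [-n,n] z`; moving it by the flow: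
there are `m` and an open `U ∋ z` with `O ∩ U ⊆ Φ [-m,m] z`. If `t ↦ Φ t z` is not injective, the
stabiliser is a closed subgroup of `ℝ`, neither `0` nor `ℝ`, so `P ℤ`, and `O` is compact. If it is
injective: if `Φ (t i) z ∈ C`, `|t i| → ∞`, a subsequence converges to `Φ s z ∈ O`, so
`Φ (t i - s) z → z`, so `Φ (t i - s) z ∈ Φ [-m,m] z`, `|t i - s| ≤ m` by injectivity, contradiction; so
`O` is not compact (take `C = O`). -/
def S_ORB : Prop :=
  ∀ (Q : Type) [TopologicalSpace Q] [T2Space Q] (Φ : ℝ → N5 → N5) (p : C(N5, Q)), IsQuo Φ p →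
    ∀ z : N5, (¬ ∀ t, Φ t z = z) →
      (p z ∉ LL p → ∃ P : ℝ, 0 < P ∧ Φ P z = z ∧ ∀ t, Φ t z = z → ∃ n : ℤ, t = n * P) ∧
      (p z ∈ LL p → (∀ t, Φ t z = z → t = 0) ∧
        ∀ C : Set N5, IsCompact C → ∃ T : ℝ, ∀ t, Φ t z ∈ C → |t| ≤ T)

/-- **BOX** (long flow boxes; 250 lines). `X = d/dt Φ t z` at `t = 0` is not zero (otherwise
`d/dt Φ t z = D(Φ t)(z) X = 0` for all `t`, so `z` is fixed). Complete to a basis `X, a₁..a₄`,
`G v = Φ (v 0) (z + Σ v i • a i)` is smooth and a local diffeomorphism at all `(t, 0, 0, 0, 0)` (the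
derivative is `D(Φ t)(z)` composed with the basis), injective on the compact set `|v 0| ≤ T`,
`v i = 0`, so injective on a neighbourhood (`Set.InjOn.exists_mem_nhdsSet`), and open and locally
invertible there. -/
def S_BOX : Prop :=
  ∀ (Φ : ℝ → N5 → N5), IsFlow Φ → ∀ z : N5, (¬ ∀ t, Φ t z = z) → ∀ T : ℝ, 0 < T →
    (∀ t : ℝ, |t| ≤ 2 * T → Φ t z = z → t = 0) →
    ∃ (ε : ℝ) (e : PartialEquiv N5 (Fin 5 → ℝ)), IsFB Φ z T ε e

/-- **WC** (the cochain `wbox`; 350 lines). Let `O = p⁻¹{p z}`. (1) `O` meets the closed disc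
`v 0 = 0`, `|v i| ≤ r` only in `z` for small `r`: `O ∩ {v 0 = 0, |v i| ≤ ε/2}` is compact, and its
points are isolated by ORB (uses ORB): by ORB the times `t` with `Φ t z` in a compact set are in a
compact interval (modulo the period), and in the flow box two such points have times at distance
`> T`; so it is finite. (2) `wbox` is a cocycle near every point outside the sides
`S = {v 0 = 0, ∃ i, |v i| = r, |v j| ≤ r}` (compact), so near `p⁻¹ V`, `V = (p S)ᶜ`. (3) If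
`wbox - td b` vanishes near a fibre which meets the open disc, `g t = b(Φ t z')` (constant simplices
of degree 0) is nondecreasing (small steps `g (t + δ) - g t = wbox (path) ∈ {0, 1}` as `v 0` increases
along the flow) and increases at the crossing; but `g` is periodic or has compact support (ORB).
`V` = intersection of the above `V` with `p` (open box) (`p` is open). -/
def S_WC : Prop :=
  ∀ (Q : Type) [TopologicalSpace Q] [CompactSpace Q] [T2Space Q] (Φ : ℝ → N5 → N5) (p : C(N5, Q)),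
    IsQuo Φ p → ∀ (z : N5), (¬ ∀ t, Φ t z = z) → ∀ (T ε : ℝ) (e : PartialEquiv N5 (Fin 5 → ℝ)),
    IsFB Φ z T ε e → ∃ r₀ : ℝ, 0 < r₀ ∧ r₀ < ε ∧ ∀ r, 0 < r → r < r₀ →
      (∀ t v, v ∈ e.target → (∀ i, i ≠ 0 → |v i| ≤ r) → |v 0| ≤ T → e.symm v = Φ t z →
        ∀ i, i ≠ 0 → v i = 0) ∧
      Cc (inc (wbox e T r)) ∧
      ∃ V : Set Q, IsOpen V ∧ p z ∈ V ∧ Nv (p ⁻¹' V) (dl (wbox e T r)) ∧
        ∀ q ∈ V, ∀ b : TS N5 → ℚ, Cc b →
          ¬ NV (p ⁻¹' {q}) (inc (tens (wbox e T r) (1 : ℚ)) - td b)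

/-- **GL** (the generator at a line; 400 lines; uses G1, G2, ORB, BOX, and WC for closedness).
`β` has compact support, `O = p⁻¹{q}` is a properly embedded line; choose `T' > T` such that `β` and
`wbox` vanish near `Φ t z` for `|t| ≥ T' - 1`. A long flow box `e'` (BOX with `T'`), `K` = the arc
`Φ [-T',T'] z = BX e' {|v 0| ≤ T', v i = 0}`, `L₁` its left end point, `L₂` both end points. The
function `θ` = 1 if `0 ≤ v 0` in the chart `e'`, `0` elsewhere, is a generator `USph L₂ L₁ 0 θ` (points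
are `CAcy`), `RAcy K L₁` (G2), so `USph K L₂ 1 (dl θ)` (G2, 4th item), and `dl θ = wbox` near `K`. So
`β = r wbox + td b` near `K`, `b` zero near `L₂`. `NV.split` for the closed sets `K` and
`(O \ open arc) ∪ (complement of a large ball)`, whose intersection is `L₂`: change `b` so that it
vanishes near the second one. `s = 0`. -/
def S_GL : Prop :=
  ∀ (Q : Type) [TopologicalSpace Q] [CompactSpace Q] [T2Space Q] (Φ : ℝ → N5 → N5) (p : C(N5, Q)),
    IsQuo Φ p → ∀ (z : N5), (¬ ∀ t, Φ t z = z) → p z ∈ LL p →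
    ∀ (T ε : ℝ) (e : PartialEquiv N5 (Fin 5 → ℝ)), IsFB Φ z T ε e → ∃ r₀ : ℝ, 0 < r₀ ∧ r₀ < ε ∧
      ∀ r, 0 < r → r < r₀ → ∀ β : TS N5 → ℚ, Cc β → NV (p ⁻¹' {p z}) (td β) →
        ∃ (r' : ℚ) (b : TS N5 → ℚ), Cc b ∧
          NV (p ⁻¹' {p z}) (β - inc (tens (wbox e T r) r') - td b)

/-- **GC** (the generator at a circle; 400 lines; uses G1, ORB, BOX, and WC).
`O` = the orbit, period `P`. Two arcs `K₁ = Φ [-a,a] z`, `K₂ = Φ [P/2-a,P/2+a] z`, `P/4 < a < P/2`,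
each contained in a flow box (BOX) as the set `v i = 0`, `|v 0| ≤ a`, so `CAcy` (G1);
`O = K₁ ∪ K₂`, `K₁ ∩ K₂ = J₊ ∪ J₋` disjoint arcs, `CAcy`. `β = s₁ + td b₁` near `K₁`, `s₂ + td b₂` near
`K₂`; in degree 0 on `J₊`: `s₁ = s₂ = s`; `b₁ - b₂ = c± + td` near `J±`. For `β = wbox` (`s = 0`): `b₁` can
be chosen as the function `θ` (`1` if `0 ≤ v 0`), `b₂ = 0` (for `a` and `r` such that the disc does not
meet `K₂`): `c₊ - c₋ = 1`. So for `r' = c₊ - c₋` the class `β - s - r' wbox` has `c₊ = c₋`, and it is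
`td b` by gluing (`NV.split` for `K₁`, `K₂`); cut `b` off to have compact support. -/
def S_GC : Prop :=
  ∀ (Q : Type) [TopologicalSpace Q] [CompactSpace Q] [T2Space Q] (Φ : ℝ → N5 → N5) (p : C(N5, Q)),
    IsQuo Φ p → ∀ (z : N5), (¬ ∀ t, Φ t z = z) → p z ∉ LL p →
    ∀ (T ε : ℝ) (e : PartialEquiv N5 (Fin 5 → ℝ)), IsFB Φ z T ε e → ∃ r₀ : ℝ, 0 < r₀ ∧ r₀ < ε ∧
      ∀ r, 0 < r → r < r₀ → ∀ β : TS N5 → ℚ, NV (p ⁻¹' {p z}) (td β) →
        ∃ (s r' : ℚ) (b : TS N5 → ℚ), Cc b ∧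
          NV (p ⁻¹' {p z}) (β - cst s - inc (tens (wbox e T r) r') - td b)

/-- **REG** (regular discs are dense; 350 lines; uses ORB, BOX).
Take a flow box around a point over `O`, with image in `O` (small), `D` = the open disc `v 0 = 0`,
`|v i| < r`, with compact closure `D̄` in the box. Every orbit meets `D̄` in finitely many points (see WC
(1)). For `n : ℕ` the set `D_n = {x ∈ D | orbit(x) ∩ D ⊆ Φ [-n,n] x}` is closed in `D`, and
`D = ⋃ D_n`; `D` is Baire, so some `D_n` contains a nonempty open subset `O₁` of `D`. The number of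
points of `orbit(x) ∩ O₁` is bounded for `x ∈ O₁` (times in `[-n,n]`, distance of the crossings `≥ T`).
Choose `x₁ ∈ O₁` for which it is maximal, `y₁ = x₁, …, y_m` the points, `W_i ∋ y_i` disjoint open
subsets of `O₁`. For `x` near `x₁` the orbit meets every `W_i` (continuity of the flow, and move along
the flow to `v 0 = 0`), so it meets every `W_i` in exactly one point. So `p` is injective on a
neighbourhood of `x₁` in `D`. The required flow box is a translate and restriction of the chart. -/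
def S_REG : Prop :=
  ∀ (Q : Type) [TopologicalSpace Q] [CompactSpace Q] [T2Space Q] (Φ : ℝ → N5 → N5) (p : C(N5, Q)),
    IsQuo Φ p → ∀ O : Set Q, IsOpen O → O.Nonempty → Disjoint O (FX Φ p) →
      ∃ (z : N5) (T ε : ℝ) (e : PartialEquiv N5 (Fin 5 → ℝ)), p z ∈ O ∧ IsFB Φ z T ε e ∧
        ∀ v ∈ e.target, ∀ v' ∈ e.target, v 0 = 0 → v' 0 = 0 → p (e.symm v) = p (e.symm v') → v = v'

/-- **DEG** (the local degree at a regular point; 450 lines; uses G1, G2, G3, TOP).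
`p` is injective on the disc `D = {v 0 = 0}` of the box, and `p(D) = p(box)` is open: `ι = p ∘ e.symm` is
a homeomorphism from the disc `|v i| < ε` of `ℝ⁴` to an open subset of `Q`, so `ι⁻¹` is a chart of `Q`
(`IsHChart _ univ`). Let `U = ι {|v i| < ρ}`, `ρ < r < r₀ < ε`, `V ∈ Bx`, `V ⊆ U`, `V ∋ p z`, `σ = o V`,
`X` = the closed box `|v 0| ≤ T`, `|v i| ≤ r`, `w = wbox e T r`. `r₀` and `U` such that `w` is closed
near `p⁻¹ U` (WC) . Suppose `IN (w ∪ p^*σ) = 0`. `w ∪ p^*σ` (over `ℤ`) is closed and vanishes near the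
complement of the open box `B` (on sides: `p^*σ = 0` near `v` with `|v i| ≥ ρ`, as `ι v ∉ V`). By G3
`USph univ Bᶜ 5 g`, so `w ∪ p^*σ = n g + td b` with `b` zero near `Bᶜ`, and `IN (g) ≠ 0` gives `n = 0`. Let
`θ` = 1 if `0 ≤ v 0` in the box, `0` elsewhere: `w = dl θ` near every point of the open box and
near the part of `X` where `|v i| < r`; so near `X`: `td (θ ∪ p^*σ - b) = 0`, and `θ ∪ p^*σ - b`
vanishes near all facets of `X` except the top `v 0 = T`. By G3 (first item) it is `td c` near `X`, `c`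
zero near those facets. Restrict to the top slice `j : v ↦ e.symm (T, v)`, `p ∘ j = ι`: `ι^*σ = td j^*c`
near the closed disc, `j^*c` zero near its boundary. Transport to `Q` by the chart and extend by
zero: `σ - td c' ∈ NV univ` with `c'` zero near the complement of `ι {|v i| < r}`, which contradicts
the uniqueness clause of `USph univ (ι {|v i| < r})ᶜ 4 σ` (G3, last item, `mono`; if the elements of
`Bx` are not boxes, first compare `σ` with a generator of a box `V'' ⊆ V` around `p z` and a `V''' ∈ Bx`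
inside it: `IsOri`, or use `GEO`'s basis; `Geo.gen` and G2 items 5, 6). -/
def S_DEG : Prop :=
  ∀ (Q : Type) [TopologicalSpace Q] [CompactSpace Q] [T2Space Q] [CompletelyNormalSpace Q]
    (Φ : ℝ → N5 → N5) (p : C(N5, Q)), IsQuo Φ p →
    ∀ (Bx : Set (Set Q)) (o : Set Q → Sing Q 4 → ℤ) (IN : (Sing N5 5 → ℚ) →ₗ[ℚ] ℚ),
    Geo 4 (∅ : Set Q) Bx → (∀ V ∈ Bx, IsBox 4 V) → IsOri 4 (∅ : Set Q) Bx o → IsIN IN →
    ∀ (z : N5) (T ε : ℝ) (e : PartialEquiv N5 (Fin 5 → ℝ)), IsFB Φ z T ε e →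
    (∀ v ∈ e.target, ∀ v' ∈ e.target, v 0 = 0 → v' 0 = 0 → p (e.symm v) = p (e.symm v') → v = v') →
    ∀ r : ℝ, 0 < r → r < ε →
    ∃ U : Set Q, IsOpen U ∧ p z ∈ U ∧ ∀ V ∈ Bx, p z ∈ V → V ⊆ U →
      IN (cup (show 1 + 4 = 5 by rfl) (tens (wbox e T r) (1 : ℚ)) (tens (pb p (o V)) (1 : ℚ))) ≠ 0

/-- **ND** (nondegeneracy; 350 lines; uses ORB, BOX, WC, GL, GC, REG, DEG).
`q ∉ F`: `z` over `q`, `T` small (ORB), a flow box (BOX), `w = wbox` with `r` small (WC, GL, GC):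
`IsW p q w` and `V₀ ∋ q` open where `w` is closed and not exact near any fibre. Let `V ∈ Bx`,
`q ∈ V ⊆ V₀` (`V` disjoint from `F`). By REG there is a regular `z'` over `V`, `q' = p z'`,
`w' = wbox e' T' r'`, `r'` small, `IsW p q' w'`, and `U'` of DEG. Near `p⁻¹ q'`: `w = s + r w' + td b`
(`s = 0` by degrees, take the components of degree 1 and 0), `r ≠ 0` by WC. This holds near
`p⁻¹ U''`, `U'' ∋ q'` open (the set where it holds is open and contains the compact fibre; if the fibre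
is a line: the difference has compact support, so the set where it does not vanish has compact closure
`C`, disjoint from the fibre, `U'' = (p C)ᶜ`). Choose `V' ∈ Bx`, `q' ∈ V' ⊆ V ∩ U' ∩ U''`. Then
`IN (w ∪ p^*o(V')) = r IN (w' ∪ p^*o(V')) ≠ 0` (`td b ∪ p^*o(V')` is `td (b ∪ p^*o(V'))` up to `Nv univ`),
and `o(V') - o(V) = td b''`, `b''` zero near `Vᶜ`, so `IN (w ∪ p^*(o V' - o V)) = 0` by the Leibniz rule
(CUP, `R = ℚ`, `α = 1`), as `dl w = 0` near `p⁻¹ V`. -/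
def S_ND : Prop :=
  ∀ (Q : Type) [TopologicalSpace Q] [CompactSpace Q] [T2Space Q] [CompletelyNormalSpace Q]
    (Φ : ℝ → N5 → N5) (p : C(N5, Q)), IsQuo Φ p →
    ∀ (Bx : Set (Set Q)) (o : Set Q → Sing Q 4 → ℤ) (IN : (Sing N5 5 → ℚ) →ₗ[ℚ] ℚ),
    Geo 4 (∅ : Set Q) Bx → (∀ V ∈ Bx, IsBox 4 V) → IsOri 4 (∅ : Set Q) Bx o → IsIN IN →
    ∀ q : Q, q ∉ FX Φ p → ∃ w : Sing N5 1 → ℤ, NDW p Bx o IN q w

/-! ## Part 2: functionals -/

/-- **NC** (the fundamental class of `ℝ⁵`; 250 lines; uses G1 - G3 on `X = N5`, SS).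
`B n = (-n,n)^5` (chart: the coordinates, `IsHChart _ univ`), `USph univ (B n)ᶜ 5 w` for all `n ≥ 1` with
the same `w` (G3, `w` = a generator for `B 1`, last item). On the subspace of those `c : Sing N5 5 → ℚ`
with `Cc (inc c)` and `Nv univ (dl c)` the value `r` of `c = tens w r + dl b` mod `Nv univ` (`b` with
compact support) is well defined and linear (uniqueness clause); extend it linearly to the sum with
`Nv univ`, then to all cochains. `box`: `V ⊆ B n` for some `n` (`V` is relatively compact), by `mono`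
(G3) `w_V` is also a generator for `B n`, so `w_V = ± w + td b` (G2, last item). `ex`: `other`/`top`
(`PFund.lean`). -/
def S_NC : Prop := ∃ IN : (Sing N5 5 → ℚ) →ₗ[ℚ] ℚ, IsIN IN

/-- **HL** (cohomology of `(Q, L)` in degrees `≥ 4`; 350 lines).
`C` = the complex of functionals of `PFund.lean` (`(Grx Q ℚ ℚ).dual ℚ` with `B = ∅`; `dual_acy`), and
for a closed set `K` the complex `C|K` with `Z_K(S) = Z(S ∩ K)` (axioms immediate; acyclic at the
points outside `K` trivially), so by `boot'` exactness near `K` in degrees `> 4`.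
(1) Suppose `c ∉ dl (Nv L) + Nv univ`, `c ∈ Nv L`, `dl c ∈ Nv univ`. A functional `f` kills this subspace
and `f c = 1`. `c` vanishes near `L`, choose `O ⊇ L` open with `Nv O c`, `K = Oᶜ`. `f ∘ dl` kills `Nv L`, so
it is in `Z K` (`U = Lᶜ`). So `f = ψ ∘ dl + g`, `g ∈ Z K` kills `Nv O ∋ c`, and `ψ (dl c) = 0`:
contradiction. (2) The same with `f = φ` in degree 4: `φ` is exact near every point `x ∈ K`: choose
`V ∈ Bx`, `x ∈ V ⊆ Lᶜ`: cocycles with support in `V` are `r o(V) + dl b`, `b ∈ Nv Vᶜ ⊆ Nv L`, so `φ` kills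
them, so `φ` factors through `dl` (as in `dual_acy`), and `HC.ex_of_local`. -/
def S_HL : Prop :=
  ∀ (Q : Type) [TopologicalSpace Q] [CompactSpace Q] [T2Space Q] [CompletelyNormalSpace Q]
    (Bx : Set (Set Q)) (o : Set Q → Sing Q 4 → ℤ), Geo 4 (∅ : Set Q) Bx → LocCoord Q →
    IsOri 4 (∅ : Set Q) Bx o → ∀ L : Set Q, IsClosed L →
    (∀ (k : ℕ), 4 ≤ k → ∀ c : Sing Q (k + 1) → ℚ, Nv L c → Nv univ (dl c) →
      ∃ b : Sing Q k → ℚ, Nv L b ∧ Nv univ (c - dl b)) ∧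
    (∀ φ : (Sing Q 4 → ℚ) →ₗ[ℚ] ℚ, (∀ c, Nv univ c → φ c = 0) →
      (∀ c : Sing Q 3 → ℚ, Nv L c → φ (dl c) = 0) →
      (∀ V ∈ Bx, Disjoint V L → φ (tens (o V) 1) = 0) →
      ∀ c : Sing Q 4 → ℚ, Nv L c → Nv univ (dl c) → φ c = 0)

/-- **JP** (the correction functional; 100 lines; uses HL (1), TOP).
`J` is defined on `dl (Nv L) + Nv univ` by `J (dl c + ν) = IN (pb p c)`: well defined since
`dl c ∈ Nv univ` implies `c = dl b + ν'`, `b ∈ Nv L`, and `p^*b` has compact support (TOP). Extend. -/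
def S_JP : Prop :=
  ∀ (Q : Type) [TopologicalSpace Q] [CompactSpace Q] [T2Space Q] [CompletelyNormalSpace Q]
    (Φ : ℝ → N5 → N5) (p : C(N5, Q)), IsQuo Φ p →
    ∀ (Bx : Set (Set Q)) (o : Set Q → Sing Q 4 → ℤ) (IN : (Sing N5 5 → ℚ) →ₗ[ℚ] ℚ),
    Geo 4 (∅ : Set Q) Bx → LocCoord Q → IsOri 4 (∅ : Set Q) Bx o → IsIN IN →
    ∃ J : (Sing Q 6 → ℚ) →ₗ[ℚ] ℚ, IsJ p IN J

/-- **PH** (properties of `Φ(α, β)`; 300 lines; uses CUP, TOP).
(1) `D² = 0`: `pair 5 IN (td β) y = pair 5 IN β (td y)` for `Cc β` (CUP with `B = Kᶜ`, `m = 4`), and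
`-pair 5 IN (p^*α̂) (p^*x) - pair 6 J (td α) x + pair 6 J α (td x) = 0` by `ε_{i+1} = (-1)^{i+1} ε_i`, the
Leibniz rule and `J (dl c) = IN (pb p c)` for `c = α_i ∪ x_{5-i} ∈ Nv L`. (2) supports: all the cup
products are in `Nv univ`. (3), (4) degrees, `p^*α̂` has compact support if `NV (LL p) α` (TOP). -/
def S_PH : Prop :=
  ∀ (Q : Type) [TopologicalSpace Q] [CompactSpace Q] [T2Space Q] (Φ : ℝ → N5 → N5) (p : C(N5, Q))
    (IN : (Sing N5 5 → ℚ) →ₗ[ℚ] ℚ) (J : (Sing Q 6 → ℚ) →ₗ[ℚ] ℚ), IsQuo Φ p → IsIN IN → IsJ p IN J →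
    (∀ (α : TS Q → ℚ) (β : TS N5 → ℚ), NV (LL p) α → Cc β → ∀ x : TS Q → ℚ,
      Phi p IN J (td α) (td β - tpb p (hatt α)) x = Phi p IN J α β (td x)) ∧
    (∀ (α : TS Q → ℚ) (β : TS N5 → ℚ) (x : TS Q → ℚ),
      (∀ q : Q, (NV {q} α ∧ NV (p ⁻¹' {q}) β) ∨ NV {q} x) → Phi p IN J α β x = 0) ∧
    (∀ k x, InT p (k + 1) x → InT p k (tD p IN J x)) ∧
    (∀ k x, InT p k x → tD p IN J (tD p IN J x) = 0) ∧
    (∀ k x K, IsClosed K → InT p k x → InZ p K x → InZ p K (tD p IN J x))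

/-- **CX** (bootstrap; 400 lines; uses PH, TOP).
`HC Q` with `T k` = the additive group of the `x` with `InT p k x`, `Z k K` = those with `InZ p K x`
(`inter` for `β`: `NV.split` in `N5` for `p⁻¹ K ∪ (complement of an open ball)`; `nhd` for `β`: the
set `C` of points where `β` does not vanish nearby is compact, `U = (p C)ᶜ`; `f`: as for `dual` in
`LocT.lean`/`PFund.lean`). For `K` closed: `C|K` with `Z_K(S) = Z(S ∩ K)`, acyclic at all points if `C`
is acyclic at the points of `K`; `boot'`. For `F = FX`: `T' k = Z k F`, `Z' k S = Z k (S ∪ F)`: at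
`x ∈ F` trivial; at `x ∉ F`: `φ = d ψ` near `x`, split `ψ = ψ₁ + ψ₂`, `ψ₁ ∈ Z {x}`, `ψ₂ ∈ Z F` (`inter`). -/
def S_CX : Prop :=
  ∀ (Q : Type) [TopologicalSpace Q] [CompactSpace Q] [T2Space Q] [CompletelyNormalSpace Q]
    (Φ : ℝ → N5 → N5) (p : C(N5, Q)) (IN : (Sing N5 5 → ℚ) →ₗ[ℚ] ℚ) (J : (Sing Q 6 → ℚ) →ₗ[ℚ] ℚ),
    IsQuo Φ p → LocCoord Q → IsIN IN → IsJ p IN J →
    (∀ q, q ∉ FX Φ p → ∀ k x, InT p (k + 1) x → InZ p {q} (tD p IN J x) →
      ∃ y, InT p (k + 2) y ∧ InZ p {q} (x - tD p IN J y)) →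
    (∀ q, q ∈ FX Φ p → ∀ k, 4 ≤ k → ∀ x, InT p (k + 1) x → InZ p {q} (tD p IN J x) →
      ∃ y, InT p (k + 2) y ∧ InZ p {q} (x - tD p IN J y)) →
    Acy3 Φ p IN J

/-- **LOC1** (exactness near a point outside `F`; 450 lines; uses PH, TOP, ND).
Let `x = (α, β, f)`. (a) If `q ∉ L`: `α = e + td α'` near `q` (`Geo.cacy`), `α'` of degree `5 - k`, zero near
`L` (split); in degree 0 `td β = e` near the fibre gives `e = 0`. Subtract `D (α', 0, 0)`: `α ∈ NV {q}`.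
(If `q ∈ L` this holds anyway.) (b) `td β ∈ NV (p⁻¹ q)`, so `β = s + r w + td b` near `p⁻¹ q` (`w` from ND).
Take the component of degree `5 - k`. Subtract `D (0, b, 0)` and, if `s ≠ 0` (so `q ∉ L`, `k = 5`),
`D (-s·1 near q, 0, 0)`: now `β = r w` near the fibre (`k = 4`). For `V ∈ Bx` small evaluate the third
component of `D x ∈ Z {q}` at `inc (o V)` (`∈ NV Vᶜ`, `td ∈ NV univ`): `r IN (w ∪ p^*o(V)) = 0` up to
sign, so `r = 0`. (c) `α, β` vanish near `q`, so `f ∘ td ∈ Z {q}`. If `k = 3` subtract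
`D (0, κ w, 0)`, so that `f (o V) = 0`. Now `f` kills the cocycles of degree `k + 1` in `NV Vᶜ`
(`r o(V) + td`), so `f = -ψ ∘ td` near `q` (as in `dual_acy`, `ext_bd`, `PFund.lean`), `x - D (0,0,ψ)`. -/
def S_LOC1 : Prop :=
  ∀ (Q : Type) [TopologicalSpace Q] [CompactSpace Q] [T2Space Q] [CompletelyNormalSpace Q]
    (Φ : ℝ → N5 → N5) (p : C(N5, Q)) (Bx : Set (Set Q)) (o : Set Q → Sing Q 4 → ℤ)
    (IN : (Sing N5 5 → ℚ) →ₗ[ℚ] ℚ) (J : (Sing Q 6 → ℚ) →ₗ[ℚ] ℚ),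
    IsQuo Φ p → Geo 4 (∅ : Set Q) Bx → IsOri 4 (∅ : Set Q) Bx o → IsIN IN → IsJ p IN J →
    ∀ q, q ∉ FX Φ p → (∃ w, NDW p Bx o IN q w) →
    ∀ k x, InT p (k + 1) x → InZ p {q} (tD p IN J x) →
      ∃ y, InT p (k + 2) y ∧ InZ p {q} (x - tD p IN J y)

/-- **LOC2** (exactness near a point of `F` in high degrees; 250 lines; uses PH, TOP). As LOC1; the
fibre is a point, `CAcy` in `N5` (G1 or `Geo.cacy` of `N5`): `β = s + td b`, and `k + 1 ≥ 5`, so `f` is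
closed in degree `≥ 5`, exact near `q`. -/
def S_LOC2 : Prop :=
  ∀ (Q : Type) [TopologicalSpace Q] [CompactSpace Q] [T2Space Q] [CompletelyNormalSpace Q]
    (Φ : ℝ → N5 → N5) (p : C(N5, Q)) (Bx : Set (Set Q)) (o : Set Q → Sing Q 4 → ℤ)
    (IN : (Sing N5 5 → ℚ) →ₗ[ℚ] ℚ) (J : (Sing Q 6 → ℚ) →ₗ[ℚ] ℚ),
    IsQuo Φ p → Geo 4 (∅ : Set Q) Bx → IsOri 4 (∅ : Set Q) Bx o → IsIN IN → IsJ p IN J →
    ∀ q, q ∈ FX Φ p → ∀ k, 4 ≤ k → ∀ x, InT p (k + 1) x → InZ p {q} (tD p IN J x) →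
      ∃ y, InT p (k + 2) y ∧ InZ p {q} (x - tD p IN J y)

/-- **UF** (closed 2-cochains are exact near `F`; 300 lines; uses TOP, G1, model `PTaut.lean`).
`F_N = p⁻¹ F` is compact and `p` is injective on it. `HC Q`: `T k` = pairs `(a, b)` of total cochains on
`Q` and `N5`, `d (a, b) = (td a, p^*a - td b)`, `Z k S = {NV (S ∩ F) a, NV (p⁻¹ (S ∩ F)) b}` (`inter` for
`b`: split in `N5`; `nhd`: `p⁻¹ (S ∩ F)` is compact, tube lemma: the last item of TOP or
`p` restricted to a compact set is closed). At `q ∈ F` (fibre `{z}`): as in TAUT, at `q ∉ F` trivial. `boot'`.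
`p^*u = td y'` near `F_N` (`CAcy` of a big box of `N5`, G1). So `(u, y') = d (a', b')` near `F`, `u = td a'`
near `F`; take components. -/
def S_UF : Prop :=
  ∀ (Q : Type) [TopologicalSpace Q] [CompactSpace Q] [T2Space Q] [CompletelyNormalSpace Q]
    (Φ : ℝ → N5 → N5) (p : C(N5, Q)) (Bx : Set (Set Q)),
    IsQuo Φ p → Geo 4 (∅ : Set Q) Bx → LocCoord Q →
    ∀ u : Sing Q 2 → ℚ, dl u = 0 → ∃ y : Sing Q 1 → ℚ, Nv (FX Φ p) (u - dl y)

/-! ## Part 3: the end game -/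

/-- **EPS** (Euler class near `K`; 350 lines; uses PH, DUAL, Acy3 (hypothesis), SS).
`x = (ε, η, φ)` is `Acy3.acy` for `k = 3` applied to `III I` (`D (III I) = (0, 0, -I ∘ td) = 0` by `fund`).
Given `a : Sing Q 4 → ℚ` in `Nv L` with `dl a ∈ Nv univ`: `p^*a` is closed with compact support, so
`p^*a = td θ` mod `NV univ`, `θ` of degree 3 with compact support (`isIN.ex`). The functional
`Φ(a,θ)` on `Z²(Q)` kills coboundaries (PH), so by duality (DUAL with `R = E = ℚ`, surjectivity) it is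
`I (u ∪ ·)`, `u` closed. `Φ(a,θ) - I (u ∪ ·)` vanishes on `Z²(Q) + NV univ`, so it is `f ∘ td`, so
`D (a, θ, f) = (0, 0, I (u ∪ ·))` mod `InZ univ`. On the other hand `(ε ∪ u, η ∪ p^*u, φ_u)`,
`φ_u y = - φ (u ∪ y)` (`y` of degree 3) has `D = (0, 0, - I (u ∪ ·))` near `K` (signs: `Φ(ε∪u, η∪p^*u)(x) =
- Φ(ε,η)(u ∪ x)` for `x` of degree 2). The sum is a cocycle near `K` (`k = 2`), so exact near `K`:
`a + ε ∪ u = td a'` near `K`; replace `u` by `-u`. -/
def S_EPS : Prop :=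
  ∀ (Q : Type) [TopologicalSpace Q] [CompactSpace Q] [T2Space Q] [CompletelyNormalSpace Q]
    [PathConnectedSpace Q] (Φ : ℝ → N5 → N5) (p : C(N5, Q)) (Bx : Set (Set Q))
    (o : Set Q → Sing Q 4 → ℤ) (I : (Sing Q 4 → ℚ) →ₗ[ℚ] ℚ) (IN : (Sing N5 5 → ℚ) →ₗ[ℚ] ℚ)
    (J : (Sing Q 6 → ℚ) →ₗ[ℚ] ℚ), Dat Φ p Bx o I IN J → Acy3 Φ p IN J →
    ∀ K : Set Q, IsClosed K → Disjoint K (FX Φ p) →
    ∃ x : Tri Q, InT p 5 x ∧ InZ p K (III I - tD p IN J x) ∧
      ∀ a : Sing Q 4 → ℚ, Nv (LL p) a → Nv univ (dl a) →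
        ∃ u : Sing Q 2 → ℚ, dl u = 0 ∧ ∃ a' : Sing Q 3 → ℚ, Nv (LL p) a' ∧
          Nv K (a - cup (show 2 + 2 = 4 by rfl) (cp 2 x.1) u - dl a')

/-- **GY** (the Gysin functional; 250 lines; uses PH, HL).
For closed `x`: the value `Φ(a,θ)(x)` does not depend on `θ` (two choices differ by a closed compactly
supported cochain of degree 3, exact by `isIN.ex`; PH), linear in `a`, zero for `a = dl c` (`θ = p^*c` up
to sign) and for `a ∈ Nv univ`; extend it to a functional `φ` on all cochains (define it on the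
subspace of all `a` in `Nv L` with `dl a ∈ Nv univ`, plus `Nv univ`). Local constancy: `o V' - o V = td b`,
`b ∈ NV Vᶜ`. So `φ (o V) = g q` for a locally constant function `g` on `Lᶜ` (all `V ∋ q` in `Bx`
disjoint from `L`). Near `F`: for `q ∈ F` choose `x = x₀ + td x''` with `x₀` zero on the simplices in an
open `U₁ ∋ q` (`Geo.cacy`), a box `W` of `N5` with `z ∈ W`, closure in `p⁻¹ U₁`, `V ∈ Bx` with `q ∈ V`,
`p⁻¹ V ⊆ W` (TOP). `p^*o(V) = td θ` with `θ ∈ NV Wᶜ` (G3), so `Φ(oV,θ)(x) = Φ(oV,θ)(x₀) = 0` (supports):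
`g q = 0`. -/
def S_GY : Prop :=
  ∀ (Q : Type) [TopologicalSpace Q] [CompactSpace Q] [T2Space Q] [CompletelyNormalSpace Q]
    (Φ : ℝ → N5 → N5) (p : C(N5, Q)) (Bx : Set (Set Q)) (o : Set Q → Sing Q 4 → ℤ)
    (I : (Sing Q 4 → ℚ) →ₗ[ℚ] ℚ) (IN : (Sing N5 5 → ℚ) →ₗ[ℚ] ℚ) (J : (Sing Q 6 → ℚ) →ₗ[ℚ] ℚ),
    Dat Φ p Bx o I IN J → ∀ x : Sing Q 2 → ℚ, dl x = 0 →
    ∃ (φ : (Sing Q 4 → ℚ) →ₗ[ℚ] ℚ) (g : Q → ℚ), (∀ c, Nv univ c → φ c = 0) ∧
      (∀ c : Sing Q 3 → ℚ, Nv (LL p) c → φ (dl c) = 0) ∧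
      (∀ (a : Sing Q 4 → ℚ) (θ : TS N5 → ℚ), Nv (LL p) a → Nv univ (dl a) → Cc θ →
        NV univ (td θ - tpb p (inc a)) → φ a = Phi p IN J (inc a) θ (inc x)) ∧
      (∀ V ∈ Bx, Disjoint V (LL p) → ∀ q ∈ V, φ (tens (o V) 1) = g q) ∧
      ∀ q ∈ FX Φ p, g q = 0

/-- **CLO** (the components of `A = Lᶜ`; 400 lines; uses EPS, PH, HL).
Let `A₁` be open, `A \ A₁` open, `A = (LL p)ᶜ`. (i) If `F ≠ ∅` and `A₁ ∩ F = ∅` then `A₁ = ∅`. `K` = closure
of `A₁`, contained in `A₁ ∪ L`, disjoint from `F`; `x = (ε, η, φ)` of EPS. `ε₁ σ = ε σ` if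
`range σ ⊆ A₁`, else `0`: in `Nv L`, `dl ε₁ ∈ Nv univ`. `p^*ε₁ = td θ₁`, `θ₁` of degree 1 (`isIN.ex`).
`Φ(ε₁,θ₁)` on `C⁴(Q)` kills coboundaries and `Nv univ`; `= r I` on `Z⁴(Q)` (duality with `q = 4`, or HL with
`L = ∅`). `r = 0`: evaluate at `o V`, `V` small around `q₀ ∈ F`: `ε₁ = 0` near `q₀` and `θ₁ = td ζ` near the
fibre (`ζ` of degree 0, CAcy of a point, degree 1). So `Φ(ε₁,θ₁) = f ∘ td` mod `InZ univ`, and
`D (ε₁, θ₁, f) ∈ InZ univ`, so by `Acy3.acy` for `k = 4`, `K = univ`: `ε₁ - td a ∈ NV univ`, `a ∈ NV L`. If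
`q₁ ∈ A₁`, choose `V ∈ Bx`, `q₁ ∈ V ⊆ A₁`; by EPS `o V = ε ∪ u + dl a'` near `K`; restrict to `A₁`:
`o V = ε₁ ∪ u + dl a'₁` mod `Nv univ`, so `1 = I (o V) = I (ε₁ ∪ u) = I (dl (a ∪ u)) = 0`.
(ii) If `F = ∅`: `K = univ`, `ε₁`, `ε₂` the parts of `ε` in `A₁`, `A₂ = A \ A₁`. `Φ(ε₁,θ₁) = r I` on `Z⁴`, so
`(ε₁, θ₁, f₁) - r x` is a cocycle for suitable `f₁` (`k = 4`), exact: `ε₁ = r ε + td a`; restrict to `A₂` and
to `A₁`: if `r ≠ 0`, `ε₂` is exact, so `A₂ = ∅` by the last argument of (i); if `r = 0`, `ε₁` is exact, so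
`A₁ = ∅`. -/
def S_CLO : Prop :=
  ∀ (Q : Type) [TopologicalSpace Q] [CompactSpace Q] [T2Space Q] [CompletelyNormalSpace Q]
    [PathConnectedSpace Q] (Φ : ℝ → N5 → N5) (p : C(N5, Q)) (Bx : Set (Set Q))
    (o : Set Q → Sing Q 4 → ℤ) (I : (Sing Q 4 → ℚ) →ₗ[ℚ] ℚ) (IN : (Sing N5 5 → ℚ) →ₗ[ℚ] ℚ)
    (J : (Sing Q 6 → ℚ) →ₗ[ℚ] ℚ), Dat Φ p Bx o I IN J → Acy3 Φ p IN J →
    ∀ A₁ : Set Q, IsOpen A₁ → IsOpen ((LL p)ᶜ \ A₁) → A₁ ⊆ (LL p)ᶜ →
      ((FX Φ p).Nonempty → Disjoint A₁ (FX Φ p) → A₁ = ∅) ∧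
      (FX Φ p = ∅ → A₁ = ∅ ∨ A₁ = (LL p)ᶜ)

/-- **END** (the intersection form has rank at most one; 350 lines; uses EPS, GY, CLO, HL, UF, PH).
`F = ∅`: `x = (ε, η, φ)` of EPS with `K = univ`. For closed `u`: `a = ε ∪ u`, `θ = η ∪ p^*u` satisfy the
conditions of GY, and `φ_x a = Φ(a,θ)(x) = - I (u ∪ x)`. By CLO `g` is constant on `Lᶜ`
(`{g = g q₀}` is open and closed in it), so by HL `φ_x a = g_x I a`. So `I (u ∪ x) = - g_x I (ε ∪ u)`.
`F ≠ ∅`: `{g ≠ 0}` is open and closed in `Lᶜ` and disjoint from `F`, so empty, so `φ_x` kills `Z⁴` (HL). By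
UF wlog `u` is zero near `F`. `(0, 0, I (u ∪ ·))` is in `InT 2`, in `InZ F`, a cocycle, so `Acy3.acyF` (`k = 1`)
gives `(α, β, f)` of degree 3 with `I (u ∪ x) = Φ(α,β)(x) - f (td x) = φ_x (cp 4 α) = 0` for closed `x`. -/
def S_END : Prop :=
  ∀ (Q : Type) [TopologicalSpace Q] [CompactSpace Q] [T2Space Q] [CompletelyNormalSpace Q]
    [PathConnectedSpace Q] (Φ : ℝ → N5 → N5) (p : C(N5, Q)) (Bx : Set (Set Q))
    (o : Set Q → Sing Q 4 → ℤ) (I : (Sing Q 4 → ℚ) →ₗ[ℚ] ℚ) (IN : (Sing N5 5 → ℚ) →ₗ[ℚ] ℚ)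
    (J : (Sing Q 6 → ℚ) →ₗ[ℚ] ℚ), Dat Φ p Bx o I IN J → Acy3 Φ p IN J →
    ∃ h g : (Sing Q 2 → ℚ) → ℚ, ∀ u x : Sing Q 2 → ℚ, dl u = 0 → dl x = 0 →
      I (cup (show 2 + 2 = 4 by rfl) u x) = h u * g x

/-- **SPH** (`S² × S²`; 300 lines). `S² = Metric.sphere (0 : EuclideanSpace ℝ (Fin 3)) 1`; charts of the
product composed with a homeomorphism `E² × E² ≃ E⁴`; simply connected (product of simply connected
spaces; `S²` is the union of two contractible open sets with path connected intersection; look for an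
existing proof in `Pool/Agent`, e.g. for `S³`). `σ ∈ Z²(S²)` with `I σ = 1` for the fundamental class of
`S²` (CH, GEO, ORI2, FUND; `correct` of `TM`): it is not exact. `u = pr₁^*σ`; `σ ∪ σ` is exact on `S²` by FD
(`m = 1`, degree 4); `u` is not exact: pull back by `x ↦ (x, x₀)`. -/
def S_SPH : Prop :=
  ∃ (Q : Type) (_ : TopologicalSpace Q) (_ : T2Space Q) (_ : SecondCountableTopology Q)
    (_ : ChartedSpace (EuclideanSpace ℝ (Fin 4)) Q) (_ : SimplyConnectedSpace Q)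
    (_ : CompactSpace Q) (u : Sing Q 2 → ℚ), dl u = 0 ∧ (∀ y : Sing Q 1 → ℚ, dl y ≠ u) ∧
      ∃ c : Sing Q 3 → ℚ, cup (show 2 + 2 = 4 by rfl) u u = dl c

/-- **GQ** (geometry of `Q`; 250 lines; uses CH, GEO, ORI2, FUND, PI2). For a simply connected compact
4-manifold: `CH` gives charts, `LocCoord`, `CompletelyNormalSpace`; the proof of `GEO` (B = ∅) with
`Bx` = all boxes (`IsBox 4`); `H¹(Q; ℤ/2) = 0` by `PI2` (the fundamental group is trivial); `ORI2`;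
`FUND` with `R = E = ℚ` (INJ). -/
def S_GQ : Prop :=
  ∀ (Q : Type) [TopologicalSpace Q] [CompactSpace Q] [T2Space Q]
    [ChartedSpace (EuclideanSpace ℝ (Fin 4)) Q] [SimplyConnectedSpace Q],
    CompletelyNormalSpace Q ∧ LocCoord Q ∧ ∃ (Bx : Set (Set Q)) (o : Set Q → Sing Q 4 → ℤ)
      (I : (Sing Q 4 → ℚ) →ₗ[ℚ] ℚ), Geo 4 (∅ : Set Q) Bx ∧ (∀ V ∈ Bx, IsBox 4 V) ∧
      IsOri 4 (∅ : Set Q) Bx o ∧ IsFund 3 (∅ : Set Q) Bx o I

end Run7.h841.FQ
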