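import Pool.Agent.Run7.h841.FQ.Iface
import Pool.Agent.Run7.h841.TM.PTaut
import Pool.Agent.Run7.h841.TM.PFund

/-! Formulas for `pair`, `Phi` on homogeneous cochains, associativity of the cup product. -/

set_option autoImplicit false
set_option linter.unusedVariables false

namespace Run7.h841.FQ

open Set Topology
open Run7.h841.TM
open Pool.Agent.Helper922.HB.Sc (Sing sface vert)
open Pool.Agent.Helper158.PD (TS sub front back OB sub_sub_lz)

section gen

variable {X Y : Type} [TopologicalSpace X] [TopologicalSpace Y]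

theorem cup_assoc {p q s t u' r : ℕ} (h1 : p + q = t) (h2 : t + s = r) (h3 : q + s = u')
    (h4 : p + u' = r) (a : Sing X p → ℚ) (b : Sing X q → ℚ) (d : Sing X s → ℚ) :
    cup h2 (cup h1 a b) d = cup h4 a (cup h3 b d) := by
  funext σ
  have e1 : front h2 ∘ front h1 = (front h4 : Fin (p + 1) → Fin (r + 1)) := by
    funext i
    rfl
  have e2 : front h2 ∘ back h1 = (back h4 ∘ front h3 : Fin (q + 1) → Fin (r + 1)) := by
    funext i
    rfl
  have e3 : back h4 ∘ back h3 = (back h2 : Fin (s + 1) → Fin (r + 1)) := by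
    funext i
    apply Fin.ext
    simp only [Function.comp, back]
    omega
  simp only [cup, sub_sub_lz, e1, e2, e3, smul_eq_mul]
  ring

theorem pb_cup (f : C(X, Y)) {p q r : ℕ} (h : p + q = r) (a : Sing Y p → ℚ) (b : Sing Y q → ℚ) :
    pb f (cup h a b) = cup h (pb f a) (pb f b) := rfl

theorem pair_inc {n i j : ℕ} (h : i + j = n) (F : (Sing X n → ℚ) →ₗ[ℚ] ℚ) (a : Sing X i → ℚ)
    (b : Sing X j → ℚ) :
    pair n F (inc a) (inc b) = (-1 : ℤ) ^ (i * (i + 1) / 2) • F (cup h a b) := by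
  rw [pair_apply, Finset.sum_eq_single (⟨i, by omega⟩ : Fin (n + 1))]
  · have e : n - i = j := by omega
    subst e
    simp only [cp_inc]
  · intro m _ hm
    have : ((m : ℕ)) ≠ i := by
      intro e
      exact hm (Fin.ext e)
    rw [cp_inc_ne this, cup_zero_left, map_zero, smul_zero]
  · intro h'
    exact absurd (Finset.mem_univ _) h'

/-- only the component of complementary degree matters -/
theorem pair_inc_left {n i j : ℕ} (h : i + j = n) (F : (Sing X n → ℚ) →ₗ[ℚ] ℚ) (a : Sing X i → ℚ)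
    (b : TS X → ℚ) :
    pair n F (inc a) b = (-1 : ℤ) ^ (i * (i + 1) / 2) • F (cup h a (cp j b)) := by
  rw [pair_apply, Finset.sum_eq_single (⟨i, by omega⟩ : Fin (n + 1))]
  · have e : n - i = j := by omega
    subst e
    simp only [cp_inc]
  · intro m _ hm
    have : ((m : ℕ)) ≠ i := by
      intro e
      exact hm (Fin.ext e)
    rw [cp_inc_ne this, cup_zero_left, map_zero, smul_zero]
  · intro h'
    exact absurd (Finset.mem_univ _) h'

/-- a total cochain concentrated in one degree -/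
theorem eq_inc_of_deg {k : ℕ} {a : TS X → ℚ} (h : ∀ s : TS X, s.1 ≠ k → a s = 0) :
    a = inc (cp k a) := by
  apply tot_ext
  intro q
  by_cases hq : q = k
  · subst hq
    rw [cp_inc]
  · rw [cp_inc_ne hq]
    funext σ
    exact h ⟨q, σ⟩ hq

theorem Nv_empty' {n : ℕ} (c : Sing X n → ℚ) : Nv (∅ : Set X) c :=
  fun x hx => absurd hx (notMem_empty x)

theorem dl_cup {p q r : ℕ} (h : p + q = r) (a : Sing X p → ℚ) (b : Sing X q → ℚ) :
    dl (cup h a b) = cup (show p + 1 + q = r + 1 by omega) (dl a) b +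
      (-1 : ℤ) ^ p • cup (show p + (q + 1) = r + 1 by omega) a (dl b) := by
  have := leibniz (R := ℚ) (A := ℚ) (α := (1 : Sing X 1 → ℚˣ)) h a b
  rwa [dL_one, dF_one] at this

theorem hatt_inc {i : ℕ} (a : Sing X i → ℚ) : hatt (inc a) = (-1 : ℚ) ^ i • inc a := by
  funext s
  by_cases h : s.1 = i
  · simp only [hatt, Pi.smul_apply, smul_eq_mul, h]
  · have : inc a s = 0 := by
      simp only [inc, h, dif_neg, not_false_eq_true]
    simp only [hatt, Pi.smul_apply, smul_eq_mul, this, mul_zero]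

theorem NV.hatt {K : Set X} {a : TS X → ℚ} (h : NV K a) : NV K (FQ.hatt a) := by
  intro x hx
  obtain ⟨U, hU, hxU, h1⟩ := h x hx
  refine ⟨U, hU, hxU, fun s hs => ?_⟩
  simp only [FQ.hatt, h1 s hs, mul_zero]

end gen

section cc

variable {A : Type} [AddCommGroup A]

theorem Cc.zero : Cc (0 : TS N5 → A) := ⟨∅, isCompact_empty, NV.zero⟩

theorem Cc.add {a b : TS N5 → A} (ha : Cc a) (hb : Cc b) : Cc (a + b) := by
  obtain ⟨K, hK, h1⟩ := ha
  obtain ⟨K', hK', h2⟩ := hb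
  exact ⟨K ∪ K', hK.union hK', (h1.mono (compl_subset_compl.2 subset_union_left)).add
    (h2.mono (compl_subset_compl.2 subset_union_right))⟩

theorem Cc.neg {a : TS N5 → A} (ha : Cc a) : Cc (-a) := by
  obtain ⟨K, hK, h1⟩ := ha
  exact ⟨K, hK, h1.neg⟩

theorem Cc.sub {a b : TS N5 → A} (ha : Cc a) (hb : Cc b) : Cc (a - b) := by
  rw [sub_eq_add_neg]
  exact ha.add hb.neg

theorem Cc.smul {a : TS N5 → ℚ} (r : ℚ) (ha : Cc a) : Cc (r • a) := by
  obtain ⟨K, hK, h1⟩ := ha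
  exact ⟨K, hK, h1.smul r⟩

theorem Cc.td {a : TS N5 → A} (ha : Cc a) : Cc (td a) := by
  obtain ⟨K, hK, h1⟩ := ha
  exact ⟨K, hK, h1.td⟩

theorem Cc.cp {a : TS N5 → A} (ha : Cc a) (k : ℕ) : Cc (inc (cp k a)) := by
  obtain ⟨K, hK, h1⟩ := ha
  exact ⟨K, hK, NV.inc (h1.cp k)⟩

theorem Cc.of_NV {a : TS N5 → A} (ha : NV univ a) : Cc a :=
  ⟨∅, isCompact_empty, ha.mono (subset_univ _)⟩

theorem Cc.cupl {p q r : ℕ} (h : p + q = r) {a : Sing N5 p → ℚ} (b : Sing N5 q → ℚ)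
    (ha : Cc (inc a)) : Cc (inc (cup h a b)) := by
  obtain ⟨K, hK, h1⟩ := ha
  refine ⟨K, hK, NV.inc ?_⟩
  have h2 := (Nv.of_inc h1).cup h (L := ∅) (b := b) (fun x hx => absurd hx (notMem_empty x))
  rwa [union_empty] at h2

variable {Q : Type} [TopologicalSpace Q] [CompactSpace Q] [T2Space Q]

/-- the pull back of a cochain vanishing near `LL p` has compact support -/
theorem Cc.pull (hTOP : S_TOP) {Φ : ℝ → N5 → N5} {p : C(N5, Q)} (hp : IsQuo Φ p) {α : TS Q → A}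
    (h : NV (LL p) α) : Cc (tpb p α) := by
  obtain ⟨U, hU, hLU, h1⟩ := h.nhd
  obtain ⟨hL, -, -, -, hK, -⟩ := hTOP.2 Q Φ p hp
  refine ⟨p ⁻¹' Uᶜ, hK Uᶜ hU.isClosed_compl ?_, ?_⟩
  · exact disjoint_compl_left.mono_right hLU
  · rw [← preimage_compl, compl_compl]
    exact h1.tpb p

end cc

section phi

variable {Q : Type} [TopologicalSpace Q] (p : C(N5, Q)) (IN : (Sing N5 5 → ℚ) →ₗ[ℚ] ℚ)
  (J : (Sing Q 6 → ℚ) →ₗ[ℚ] ℚ)

theorem Phi43 (a : Sing Q 4 → ℚ) (θ : Sing N5 3 → ℚ) (y : TS Q → ℚ) :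
    Phi p IN J (inc a) (inc θ) y = IN (cup (show 3 + 2 = 5 by rfl) θ (pb p (cp 2 y))) -
      J (cup (show 4 + 2 = 6 by rfl) a (cp 2 y)) := by
  rw [Phi_apply, pair_inc_left (show 3 + 2 = 5 by rfl), pair_inc_left (show 4 + 2 = 6 by rfl)]
  norm_num
  rfl

theorem Phi21 (a : Sing Q 2 → ℚ) (θ : Sing N5 1 → ℚ) (y : TS Q → ℚ) :
    Phi p IN J (inc a) (inc θ) y = -IN (cup (show 1 + 4 = 5 by rfl) θ (pb p (cp 4 y))) +
      J (cup (show 2 + 4 = 6 by rfl) a (cp 4 y)) := by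
  rw [Phi_apply, pair_inc_left (show 1 + 4 = 5 by rfl), pair_inc_left (show 2 + 4 = 6 by rfl)]
  norm_num
  rfl

/-- multiplication by a cochain of degree two -/
theorem Phi_mul (e : Sing Q 2 → ℚ) (h : Sing N5 1 → ℚ) (u y : Sing Q 2 → ℚ) :
    Phi p IN J (inc (cup (show 2 + 2 = 4 by rfl) e u))
      (inc (cup (show 1 + 2 = 3 by rfl) h (pb p u))) (inc y) =
    -Phi p IN J (inc e) (inc h) (inc (cup (show 2 + 2 = 4 by rfl) u y)) := by
  rw [Phi43, Phi21, cp_inc, cp_inc, pb_cup,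
    cup_assoc (show 1 + 2 = 3 by rfl) (show 3 + 2 = 5 by rfl) (show 2 + 2 = 4 by rfl)
      (show 1 + 4 = 5 by rfl),
    cup_assoc (show 2 + 2 = 4 by rfl) (show 4 + 2 = 6 by rfl) (show 2 + 2 = 4 by rfl)
      (show 2 + 4 = 6 by rfl)]
  ring

theorem Phi_add_left (α α' : TS Q → ℚ) (β β' : TS N5 → ℚ) (y : TS Q → ℚ) :
    Phi p IN J (α + α') (β + β') y = Phi p IN J α β y + Phi p IN J α' β' y := by
  simp only [Phi_apply, map_add, LinearMap.add_apply]
  ring

theorem Phi_sub_left (α α' : TS Q → ℚ) (β β' : TS N5 → ℚ) (y : TS Q → ℚ) :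
    Phi p IN J (α - α') (β - β') y = Phi p IN J α β y - Phi p IN J α' β' y := by
  simp only [Phi_apply, map_sub, LinearMap.sub_apply]
  ring

theorem Phi_smul_left (r : ℚ) (α : TS Q → ℚ) (β : TS N5 → ℚ) (y : TS Q → ℚ) :
    Phi p IN J (r • α) (r • β) y = r * Phi p IN J α β y := by
  simp only [Phi_apply, map_smul, LinearMap.smul_apply, smul_eq_mul]
  ring

end phi

end Run7.h841.FQ
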